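import Pool.Agent.Work.MP_c9c104_nt.Main
import Pool.Agent.Work.MP_c9c104_nt.Final

/-!
Uniform Moebius disjointness for horocycle flows, for every lattice of SL(2,R).
-/

open MeasureTheory Filter Topology Set
open scoped ENNReal ZeroAtInfty

namespace Pool.Agent.Results.MP_c9c104_nt.UniformHorocycle

open Pool.Agent.Work.MP_c9c104_nt

theorem c0_left {X : Type} [TopologicalSpace X] [MeasurableSpace X] [MulAction G X] [HomSp X]
    (m : Measure X) [IsProbabilityMeasure m] [SMulInvariantMeasure G X m] {f : X → ℝ}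
    (hf : Continuous f) (h0 : Tendsto f (cocompact X) (𝓝 0)) {ε : ℝ} (hε : 0 < ε) :
    ∃ N0 : ℕ, ∀ N ≥ N0, ∀ x : X,
      |∑ n ∈ Finset.Icc 1 N, (ArithmeticFunction.moebius n : ℝ) * f (u (n : ℝ) • x)| ≤
        ε * N := by
  have h1 : ∀ᶠ x in cocompact X, |f x| < ε / 2 := by
    have := (tendsto_order.1 h0.abs).2 (ε / 2) (by simpa using half_pos hε)
    exact this
  obtain ⟨K, hK, hKf⟩ := mem_cocompact.1 h1
  obtain ⟨χ, hχ1, _, hχc, hχ01⟩ := exists_continuous_one_zero_of_isCompact hK isClosed_empty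
    (disjoint_empty K)
  have hg : Cc fun x => f x * χ x := ⟨hf.mul χ.continuous, hχc.mul_left⟩
  have hclose : ∀ x, |f x - f x * χ x| ≤ ε / 2 := by
    intro x
    by_cases hx : x ∈ K
    · rw [hχ1 hx]; simp; positivity
    · have h2 : |f x| < ε / 2 := hKf hx
      have h3 := hχ01 x
      have h4 : |1 - χ x| ≤ 1 := by rw [abs_le]; constructor <;> linarith [h3.1, h3.2]
      have h5 : f x - f x * χ x = f x * (1 - χ x) := by ring
      rw [h5, abs_mul]
      calc |f x| * |1 - χ x| ≤ |f x| * 1 := by gcongr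
        _ ≤ ε / 2 := by linarith
  obtain ⟨N0, hN0⟩ := main_left m hg (half_pos hε)
  refine ⟨N0, fun N hN x => ?_⟩
  have h6 := hN0 N hN x
  have h7 : |∑ n ∈ Finset.Icc 1 N, ((ArithmeticFunction.moebius n : ℝ) * f (u (n : ℝ) • x) -
      (ArithmeticFunction.moebius n : ℝ) * (f (u (n : ℝ) • x) * χ (u (n : ℝ) • x)))| ≤
      ε / 2 * N := by
    refine (Finset.abs_sum_le_sum_abs _ _).trans ?_
    refine (Finset.sum_le_sum (g := fun _ => ε / 2) fun n _ => ?_).trans ?_
    · rw [← mul_sub, abs_mul]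
      have h8 : |(ArithmeticFunction.moebius n : ℝ)| ≤ 1 := by
        exact_mod_cast ArithmeticFunction.abs_moebius_le_one
      calc _ ≤ 1 * (ε / 2) := mul_le_mul h8 (hclose _) (abs_nonneg _) zero_le_one
        _ = ε / 2 := one_mul _
    · simp; linarith
  rw [Finset.sum_sub_distrib] at h7
  rw [abs_le] at h6 h7 ⊢
  constructor <;> linarith

/-- The theorem in epsilon form for real valued functions. -/
theorem real_form (Γ : Subgroup G) (hΓ : IsLattice Γ) {f : RQ Γ → ℝ}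
    (hf : Continuous f) (h0 : Tendsto f (cocompact (RQ Γ)) (𝓝 0)) {ε : ℝ} (hε : 0 < ε) :
    ∃ N0 : ℕ, ∀ N ≥ N0, ∀ x : RQ Γ,
      |∑ n ∈ Finset.Icc 1 N, (ArithmeticFunction.moebius n : ℝ) * f (rmul Γ (u (n : ℝ)) x)| ≤
        ε * N := by
  obtain ⟨hd, μ, hμf, hμ0, hμi⟩ := hΓ
  obtain ⟨inst, hH, hact⟩ := exists_homSp Γ hd
  have hne : NeZero μ := ⟨hμ0⟩
  let m : Measure (RQ Γ) := (μ univ)⁻¹ • μ
  have hmp : IsProbabilityMeasure m := isProbabilityMeasureSMul
  have hmi : SMulInvariantMeasure G (RQ Γ) m := by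
    refine ⟨fun g s hs => ?_⟩
    have e1 : (fun x : RQ Γ => g • x) = rmul Γ (theta g)⁻¹ := by
      funext x; exact hact g x
    have hm : Measurable (rmul Γ (theta g)⁻¹) := by
      rw [← e1]; exact measurable_const_smul g
    rw [e1]
    have := hμi (theta g)⁻¹
    change (μ univ)⁻¹ • μ (rmul Γ (theta g)⁻¹ ⁻¹' s) = (μ univ)⁻¹ • μ s
    rw [← Measure.map_apply hm hs, this]
  obtain ⟨N0, hN0⟩ := c0_left m hf h0 hε
  refine ⟨N0, fun N hN x => ?_⟩
  have h1 := hN0 N hN x
  have e : ∀ n : ℕ, u (n : ℝ) • x = rmul Γ (u (n : ℝ)) x := by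
    intro n
    rw [hact, theta_u]
  simp only [e] at h1
  exact h1

/-- **Uniform Moebius disjointness for horocycle flows.** For every lattice `Γ` of `SL(2,R)` and
every continuous function `f` on `Γ \ G` vanishing at infinity, the supremum over all `x` of
`|(1/N) ∑_{n=1}^N μ(n) f(x u_n)|` tends to `0`. -/
theorem result (Γ : Subgroup G) (hΓ : IsLattice Γ) (f : C₀(RQ Γ, ℂ)) :
    Tendsto (fun N : ℕ => ⨆ x : RQ Γ, ‖(1 / (N : ℂ)) * ∑ n ∈ Finset.Icc 1 N,
      ((ArithmeticFunction.moebius n : ℤ) : ℂ) * f (rmul Γ (u (n : ℝ)) x)‖ₑ) atTop (𝓝 0) := by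
  rw [ENNReal.tendsto_nhds_zero]
  intro ε hε
  obtain ⟨δ, hδ0, hδε⟩ : ∃ δ : ℝ, 0 < δ ∧ ENNReal.ofReal δ ≤ ε := by
    by_cases hε' : ε = ⊤
    · exact ⟨1, one_pos, by rw [hε']; exact le_top⟩
    · exact ⟨ε.toReal, ENNReal.toReal_pos hε.ne' hε', by rw [ENNReal.ofReal_toReal hε']⟩
  have hre : Continuous fun x => (f x).re := Complex.continuous_re.comp f.continuous
  have him : Continuous fun x => (f x).im := Complex.continuous_im.comp f.continuous
  have hz := f.zero_at_infty'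
  have hre0 : Tendsto (fun x => (f x).re) (cocompact (RQ Γ)) (𝓝 0) := by
    have := (Complex.continuous_re.tendsto 0).comp hz
    simpa [Function.comp_def] using this
  have him0 : Tendsto (fun x => (f x).im) (cocompact (RQ Γ)) (𝓝 0) := by
    have := (Complex.continuous_im.tendsto 0).comp hz
    simpa [Function.comp_def] using this
  obtain ⟨N1, h1⟩ := real_form Γ hΓ hre hre0 (half_pos hδ0)
  obtain ⟨N2, h2⟩ := real_form Γ hΓ him him0 (half_pos hδ0)
  filter_upwards [eventually_ge_atTop (max (max N1 N2) 1)] with N hN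
  have hN1 : N1 ≤ N := (le_max_left _ _).trans ((le_max_left _ _).trans hN)
  have hN2 : N2 ≤ N := (le_max_right _ _).trans ((le_max_left _ _).trans hN)
  have hN0 : 1 ≤ N := (le_max_right _ _).trans hN
  have hNr : (0 : ℝ) < N := by exact_mod_cast (show 0 < N by omega)
  refine iSup_le fun x => ?_
  refine le_trans ?_ hδε
  rw [← ofReal_norm]
  apply ENNReal.ofReal_le_ofReal
  have a1 := h1 N hN1 x
  have a2 := h2 N hN2 x
  set S : ℂ := ∑ n ∈ Finset.Icc 1 N, ((ArithmeticFunction.moebius n : ℤ) : ℂ) *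
    f (rmul Γ (u (n : ℝ)) x) with hS
  have e1 : S.re = ∑ n ∈ Finset.Icc 1 N, (ArithmeticFunction.moebius n : ℝ) *
      (f (rmul Γ (u (n : ℝ)) x)).re := by
    rw [hS, Complex.re_sum]
    refine Finset.sum_congr rfl fun n _ => ?_
    simp
  have e2 : S.im = ∑ n ∈ Finset.Icc 1 N, (ArithmeticFunction.moebius n : ℝ) *
      (f (rmul Γ (u (n : ℝ)) x)).im := by
    rw [hS, Complex.im_sum]
    refine Finset.sum_congr rfl fun n _ => ?_
    simp
  rw [← e1] at a1
  rw [← e2] at a2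
  have a3 : ‖S‖ ≤ |S.re| + |S.im| := Complex.norm_le_abs_re_add_abs_im S
  rw [norm_mul, norm_div, norm_one, Complex.norm_natCast]
  have a4 : ‖S‖ ≤ δ * N := by linarith
  calc 1 / (N : ℝ) * ‖S‖ ≤ 1 / (N : ℝ) * (δ * N) := by gcongr
    _ = δ := by field_simp

end Pool.Agent.Results.MP_c9c104_nt.UniformHorocycle
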